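import Mathlib

set_option autoImplicit false

namespace Pool.Agent.Lib.MP_7836d5_lc

/-- A clause over the variables `V`: a finite set of literals `(variable, sign)`. -/
abbrev Clause (V : Type) : Type := Finset (V × Bool)

/-- The assignment `σ` makes some literal of `C` true. -/
def ClauseSat {V : Type} (C : Clause V) (σ : V → Bool) : Prop := ∃ l ∈ C, σ l.1 = l.2

/-- The standard (unary) CNF saying that `G` has a `k`-clique; the variable `(i, v)` means that
`v` is the `i`-th vertex of the clique. -/
def cliqueCNF {n : ℕ} (G : SimpleGraph (Fin n)) (k : ℕ) : Set (Clause (Fin k × Fin n)) :=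
  {C | (∃ i, C = Finset.univ.image fun v => ((i, v), true)) ∨
    (∃ i j u v, i ≠ j ∧ ¬ G.Adj u v ∧ C = {((i, u), false), ((j, v), false)}) ∨
    (∃ i u v, u ≠ v ∧ C = {((i, u), false), ((i, v), false)})}

/-- The block CNF saying that `G` has a clique with a vertex in each of the `k` blocks
`{v | part v = i}`; the variable `v` means that `v` is in the clique. -/
def blockCNF {n k : ℕ} (G : SimpleGraph (Fin n)) (part : Fin n → Fin k) : Set (Clause (Fin n)) :=
  {C | (∃ i, C = (Finset.univ.filter fun v => part v = i).image fun v => (v, true)) ∨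
    (∃ u v, u ≠ v ∧ ¬ G.Adj u v ∧ C = {(u, false), (v, false)})}

/-- `F` has a (general, dag-like) resolution refutation with `s` lines: every line is a clause of
`F`, a weakening of an earlier line, or a resolvent of two earlier lines; some line is empty. -/
def ResRef {V : Type} [DecidableEq V] (F : Set (Clause V)) (s : ℕ) : Prop :=
  ∃ π : Fin s → Clause V, (∃ i, π i = ∅) ∧ ∀ i, π i ∈ F ∨ (∃ j < i, π j ⊆ π i) ∨
    ∃ j < i, ∃ l < i, ∃ p, (p, true) ∈ π j ∧ (p, false) ∈ π l ∧
      π i = (π j).erase (p, true) ∪ (π l).erase (p, false)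

/-- The 0/1 point `σ` satisfies the inequality `∑ v, L.1 v * x v ≥ L.2` (real coefficients). -/
def IneqSat {V : Type} [Fintype V] (L : (V → ℝ) × ℝ) (σ : V → Bool) : Prop :=
  L.2 ≤ ∑ v, if σ v = true then L.1 v else 0

/-- `F` has a (dag-like) semantic cutting planes refutation with `s` lines: every line is a linear
inequality that follows, on 0/1 points, from one clause of `F` or from two earlier lines; some
line has no 0/1 solution. -/
def CPRef {V : Type} [Fintype V] (F : Set (Clause V)) (s : ℕ) : Prop :=
  ∃ π : Fin s → (V → ℝ) × ℝ, (∃ i, ∀ σ, ¬ IneqSat (π i) σ) ∧ ∀ i,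
    (∃ C ∈ F, ∀ σ, ClauseSat C σ → IneqSat (π i) σ) ∨
    ∃ j < i, ∃ l < i, ∀ σ, IneqSat (π j) σ → IneqSat (π l) σ → IneqSat (π i) σ

end Pool.Agent.Lib.MP_7836d5_lc
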