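import Pool.Agent.Lib.MP_7836d5_lc.Tseitin
import Pool.Agent.Lib.MP_7836d5_lc.Defs

set_option autoImplicit false
set_option linter.unusedSectionVars false

/-! The hard graphs. -/

namespace Pool.Agent.Lib.MP_7836d5_lc

open Finset

lemma cpRef_of_resRef {V : Type} [Fintype V] [DecidableEq V] {F : Set (Clause V)} {s : ℕ}
    (h : ResRef F s) : CPRef F s := by
  obtain ⟨π, ⟨i0, hi0⟩, hπ⟩ := h
  let L : Clause V → (V → ℝ) × ℝ := fun C =>
    (fun v => (if (v, true) ∈ C then 1 else 0) - (if (v, false) ∈ C then 1 else 0),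
      1 - ∑ v, if (v, false) ∈ C then 1 else 0)
  have hL : ∀ C σ, IneqSat (L C) σ ↔ ClauseSat C σ := by
    intro C σ
    have h1 : (∑ v, if σ v = true then (L C).1 v else 0) + (∑ v, if (v, false) ∈ C then 1 else 0) =
        ((univ.filter fun v => (v, σ v) ∈ C).card : ℝ) := by
      rw [← sum_add_distrib, card_filter]
      push_cast
      refine sum_congr rfl fun v _ => ?_
      cases h : σ v <;> simp [L]
    have h2 : IneqSat (L C) σ ↔ 0 < (univ.filter fun v => (v, σ v) ∈ C).card := by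
      rw [IneqSat, ← Nat.succ_le_iff, ← Nat.cast_le (α := ℝ), ← h1]
      simp only [L]
      constructor <;> intro h <;> push_cast at * <;> linarith
    rw [h2, card_pos]
    constructor
    · rintro ⟨v, hv⟩
      exact ⟨_, (mem_filter.mp hv).2, rfl⟩
    · rintro ⟨⟨v, a⟩, hl, h⟩
      simp only at h
      exact ⟨v, mem_filter.mpr ⟨mem_univ _, h ▸ hl⟩⟩
  refine ⟨fun i => L (π i), ⟨i0, fun σ => ?_⟩, fun i => ?_⟩
  · rw [hL, hi0]
    simp [ClauseSat]
  · simp only [hL]
    rcases hπ i with h | ⟨j, hj, h⟩ | ⟨j, hj, l, hl, p, -, -, h⟩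
    · exact Or.inl ⟨_, h, fun _ h => h⟩
    · exact Or.inr ⟨j, hj, j, hj, fun σ ⟨l, h1, h2⟩ _ => ⟨l, h h1, h2⟩⟩
    · refine Or.inr ⟨j, hj, l, hl, fun σ ⟨l1, h1, h2⟩ ⟨l2, h3, h4⟩ => ?_⟩
      rw [h]
      by_cases e1 : l1 = (p, true)
      · refine ⟨l2, mem_union_right _ (mem_erase.mpr ⟨fun e2 => ?_, h3⟩), h4⟩
        rw [e1] at h2
        rw [e2] at h4
        simp only at h2 h4
        rw [h2] at h4
        exact absurd h4 (by simp)
      · exact ⟨l1, mem_union_left _ (mem_erase.mpr ⟨e1, h1⟩), h2⟩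

variable {t b k : ℕ} [NeZero t] (lab : Bool × Bool × Fin t ↪ Fin k)

def Rel' (p q : Fin k × (Fin t → Fin b → ZMod 2)) : Prop :=
  (∀ s r c, p.1 = lab (s, true, r) → q.1 = lab (s, false, c) → p.2 c = q.2 r) ∧
  (∀ v, p.1 = lab (true, v) → q.1 = lab (false, v) → ∑ u, p.2 u ⬝ᵥ q.2 u = chg v)

def HH : SimpleGraph (Fin k × (Fin t → Fin b → ZMod 2)) where
  Adj p q := p.1 ≠ q.1 ∧ Rel' lab p q ∧ Rel' lab q p
  symm := ⟨fun _ _ h => ⟨h.1.symm, h.2.2, h.2.1⟩⟩
  loopless := ⟨fun _ h => h.1 rfl⟩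

lemma HH_free : (HH (b := b) lab).CliqueFree k := by
  intro S hS
  have hinj : Set.InjOn Prod.fst (S : Set (Fin k × (Fin t → Fin b → ZMod 2))) := by
    intro p hp q hq h
    by_contra hne
    exact (hS.isClique hp hq hne).1 h
  have hsurj : S.image Prod.fst = univ := by
    apply eq_univ_of_card
    rw [card_image_of_injOn hinj, hS.card_eq, Fintype.card_fin]
  have hex : ∀ i, ∃ d, (i, d) ∈ S := by
    intro i
    obtain ⟨p, hp, rfl⟩ := mem_image.mp (hsurj ▸ mem_univ i)
    exact ⟨p.2, hp⟩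
  choose d hd using hex
  have hadj : ∀ i j, i ≠ j → Rel' lab (i, d i) (j, d j) := fun i j h =>
    (hS.isClique (hd i) (hd j) fun h' => h (Prod.mk.inj h').1).2.1
  have h1 : ∀ s v u, d (lab (s, v)) u = d (lab (s, true, (ed v u).1)) (ed v u).2 := by
    rintro s ⟨a, v⟩ u
    cases a
    · exact ((hadj _ _ (by simp)).1 s u v rfl rfl).symm
    · rfl
  refine not_all (zz (fun e => d (lab (true, true, e.1)) e.2)
    (fun e => d (lab (false, true, e.1)) e.2)) fun v => ?_
  rw [← (hadj _ _ (by simp)).2 v rfl rfl]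
  refine sum_congr rfl fun u _ => ?_
  simp only [zz, ← h1]

noncomputable def dat (x y : Fin t × Fin t → Fin b → ZMod 2) : Fin k → Fin t → Fin b → ZMod 2 :=
  Function.extend lab (fun p u => (if p.1 = true then x else y) (ed p.2 u)) fun _ => 0

lemma dat_lab (x y : Fin t × Fin t → Fin b → ZMod 2) (p : Bool × Bool × Fin t) :
    dat lab x y (lab p) = fun u => (if p.1 = true then x else y) (ed p.2 u) :=
  lab.injective.extend_apply _ _ _

lemma dat_adj (i : Fin k) : ∃ v, ∀ (x y : Fin t × Fin t → Fin b → ZMod 2) (j : Fin k), i ≠ j →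
    par v (zz x y) = chg v → (HH lab).Adj (i, dat lab x y i) (j, dat lab x y j) := by
  refine ⟨Function.extend lab Prod.snd (fun _ => (true, 0)) i, fun x y j hij h => ?_⟩
  have h1 : ∀ i j : Fin k, ∀ s r c, i = lab (s, true, r) → j = lab (s, false, c) →
      dat lab x y i c = dat lab x y j r := by
    rintro _ _ s r c rfl rfl
    simp [dat_lab, ed]
  have h2 : ∀ v, ∑ u, dat lab x y (lab (true, v)) u ⬝ᵥ dat lab x y (lab (false, v)) u =
      par v (zz x y) := by
    intro v
    simp [dat_lab, par, zz]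
  refine ⟨hij, ⟨h1 i j, ?_⟩, ⟨h1 j i, ?_⟩⟩
  · rintro v rfl rfl
    rw [lab.injective.extend_apply] at h
    exact (h2 v).trans h
  · rintro v rfl rfl
    rw [lab.injective.extend_apply] at h
    exact (h2 v).trans h

lemma dat_split (i : Fin k) :
    (∀ x y : Fin t × Fin t → Fin b → ZMod 2, dat lab x y i = dat lab x 0 i) ∨
    (∀ x y : Fin t × Fin t → Fin b → ZMod 2, dat lab x y i = dat lab 0 y i) := by
  by_cases h : ∃ p, lab p = i
  · obtain ⟨⟨s, v⟩, rfl⟩ := h
    cases s
    · exact Or.inr fun x y => by simp [dat_lab]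
    · exact Or.inl fun x y => by simp [dat_lab]
  · exact Or.inl fun x y => by simp [dat, Function.extend_apply' _ _ _ h]

theorem cp_bound {V : Type} [Fintype V] {F : Set (Clause V)}
    (asg : (Fin t × Fin t → Fin b → ZMod 2) → (Fin t × Fin t → Fin b → ZMod 2) → V → Bool)
    (hsplit : ∀ v, (∀ x y, asg x y v = asg x 0 v) ∨ (∀ x y, asg x y v = asg 0 y v))
    (hF : ∀ C ∈ F, ∃ v, ∀ x y, par v (zz x y) = chg v → ClauseSat C (asg x y))
    {w W ρ κ σ : ℕ} (h8 : 8 * w < 3 * t ^ 2)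
    (hw : 4 * W ≤ w) (hd : 2 * W + t ≤ w) (hκ : 2 ≤ κ) (hn : ρ * κ = 2 ^ b)
    (hσ : 2 * (b + 1) ^ (t * t) ≤ σ)
    (hnum : (4 * σ * 2 ^ (t * t)) ^ 2 * 4 ^ (t * t) * 2 ^ b < ρ ^ 2) (s : ℕ)
    (h : CPRef F s) : κ ^ W ≤ 2 * s := by
  classical
  obtain ⟨π, ⟨i0, hi0⟩, hπ⟩ := h
  let Al : V → Prop := fun v => ∀ x y, asg x y v = asg x 0 v
  let a : (V → ℝ) × ℝ → (Fin t × Fin t → Fin b → ZMod 2) → ℝ := fun L x =>
    (∑ v, if Al v then (if asg x 0 v = true then L.1 v else 0) else 0) - L.2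
  let c : (V → ℝ) × ℝ → (Fin t × Fin t → Fin b → ZMod 2) → ℝ := fun L y =>
    ∑ v, if Al v then 0 else (if asg 0 y v = true then L.1 v else 0)
  have hac : ∀ L x y, a L x + c L y < 0 ↔ ¬ IneqSat L (asg x y) := by
    intro L x y
    have h1 : (∑ p, if asg x y p = true then L.1 p else 0) = a L x + c L y + L.2 := by
      simp only [a, c]
      rw [sub_add_eq_add_sub, sub_add_cancel, ← sum_add_distrib]
      refine sum_congr rfl fun v _ => ?_
      by_cases hA : Al v
      · simp [hA, hA x y]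
      · simp [hA, (hsplit v).resolve_left hA x y]
    rw [IneqSat, h1, not_le]
    constructor <;> intro h <;> linarith
  let π' : ℕ → (V → ℝ) × ℝ := fun i => if h : i < s then π ⟨i, h⟩ else 0
  have hπ' : ∀ i : Fin s, π' i = π i := fun i => by simp [π']
  have hcard : Fintype.card (Fin t × Fin t) = t * t := by simp
  refine dag_bound (d := t) (σ := σ) (safeSys h8) hw hd hκ hn (by rwa [hcard]) (by rwa [hcard]) s
    (fun i => a (π' i)) (fun i => c (π' i)) ⟨i0, i0.2, fun x y => ?_⟩ fun i hi => ?_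
  · rw [hac, hπ']
    exact hi0 _
  · simp only [hac, not_not]
    have e := hπ' ⟨i, hi⟩
    simp only at e
    rw [e]
    rcases hπ ⟨i, hi⟩ with ⟨C, hC, h⟩ | ⟨j, hj, l, hl, h⟩
    · obtain ⟨v0, hv0⟩ := hF C hC
      exact Or.inl ⟨univ.image (ed v0), card_image_le.trans (by simp), fun x y hs =>
        h _ (hv0 x y (safeT_star _ _ hs))⟩
    · right
      refine ⟨j, hj, l, hl, fun x y h1 => ?_⟩
      rw [hπ', hπ']
      by_contra hcon
      push Not at hcon
      exact h1 (h _ hcon.1 hcon.2)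

variable {n : ℕ} (emb : Fin k × (Fin t → Fin b → ZMod 2) ↪ Fin n)

noncomputable def asg1 (x y : Fin t × Fin t → Fin b → ZMod 2) (p : Fin k × Fin n) : Bool :=
  decide (p.2 = emb (p.1, dat lab x y p.1))

lemma asg1_split (p : Fin k × Fin n) : (∀ x y, asg1 lab emb x y p = asg1 lab emb x 0 p) ∨
    (∀ x y, asg1 lab emb x y p = asg1 lab emb 0 y p) :=
  (dat_split (b := b) lab p.1).imp (fun h x y => by simp only [asg1, h x y])
    fun h x y => by simp only [asg1, h x y]

lemma asg1_sat : ∀ C ∈ cliqueCNF ((HH lab).map emb) k, ∃ v, ∀ x y,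
    par v (zz x y) = chg v → ClauseSat C (asg1 lab emb x y) := by
  rintro C (⟨j, rfl⟩ | ⟨j, l, u, v, hjl, huv, rfl⟩ | ⟨j, u, v, huv, rfl⟩)
  · refine ⟨(true, 0), fun x y _ => ⟨((j, emb (j, dat lab x y j)), true), ?_, ?_⟩⟩
    · exact mem_image_of_mem _ (mem_univ _)
    · simp [asg1]
  · obtain ⟨v0, hv0⟩ := dat_adj (b := b) lab j
    refine ⟨v0, fun x y hs => ?_⟩
    have h1 := hv0 x y l hjl hs
    by_cases e1 : u = emb (j, dat lab x y j)
    · refine ⟨((l, v), false), by simp, ?_⟩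
      simp only [asg1, decide_eq_false_iff_not]
      intro e2
      rw [e1, e2] at huv
      exact huv ((SimpleGraph.map_adj_apply).mpr h1)
    · exact ⟨((j, u), false), by simp, by simpa [asg1] using e1⟩
  · refine ⟨(true, 0), fun x y _ => ?_⟩
    by_cases e1 : u = emb (j, dat lab x y j)
    · refine ⟨((j, v), false), by simp, ?_⟩
      simp only [asg1, decide_eq_false_iff_not]
      intro e2
      exact huv (e1.trans e2.symm)
    · exact ⟨((j, u), false), by simp, by simpa [asg1] using e1⟩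

noncomputable def part (v : Fin n) : Fin k :=
  Function.extend emb Prod.fst (fun _ => lab (true, true, 0)) v

lemma part_emb (p : Fin k × (Fin t → Fin b → ZMod 2)) : part lab emb (emb p) = p.1 :=
  emb.injective.extend_apply _ _ _

noncomputable def asg2 (x y : Fin t × Fin t → Fin b → ZMod 2) (v : Fin n) : Bool :=
  asg1 lab emb x y (part lab emb v, v)

lemma asg2_sat : ∀ C ∈ blockCNF ((HH lab).map emb) (part lab emb), ∃ v, ∀ x y,
    par v (zz x y) = chg v → ClauseSat C (asg2 lab emb x y) := by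
  rintro C (⟨j, rfl⟩ | ⟨u, v, hne, huv, rfl⟩)
  · refine ⟨(true, 0), fun x y _ => ⟨(emb (j, dat lab x y j), true), ?_, ?_⟩⟩
    · exact mem_image_of_mem _ (mem_filter.mpr ⟨mem_univ _, part_emb lab emb _⟩)
    · simp [asg2, asg1, part_emb]
  · obtain ⟨v0, hv0⟩ := dat_adj (b := b) lab (part lab emb u)
    refine ⟨v0, fun x y hs => ?_⟩
    by_cases e1 : u = emb (part lab emb u, dat lab x y (part lab emb u))
    · refine ⟨(v, false), by simp, ?_⟩
      simp only [asg2, asg1, decide_eq_false_iff_not]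
      intro e2
      by_cases e3 : part lab emb u = part lab emb v
      · rw [e3] at e1
        exact hne (e1.trans e2.symm)
      · have h1 := hv0 x y _ e3 hs
        rw [← SimpleGraph.map_adj_apply (f := emb), ← e1, ← e2] at h1
        exact huv h1
    · exact ⟨(u, false), by simp, by simpa [asg2, asg1] using e1⟩

lemma part_indep (u v : Fin n) (h : ((HH lab).map emb).Adj u v) :
    part lab emb u ≠ part lab emb v := by
  obtain ⟨p, q, h1, rfl, rfl⟩ := (SimpleGraph.map_adj _ _ _ _).mp h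
  rw [part_emb, part_emb]
  exact h1.1

end Pool.Agent.Lib.MP_7836d5_lc
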