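import Pool.Agent.Lib.MP_7836d5_lc.Avg.Final
import Pool.Agent.Lib.MP_7836d5_lc.Graph

set_option autoImplicit false

open Pool.Agent.Lib.MP_7836d5_lc in
/-- On random graphs below the `k`-clique threshold, `k`-clique formulas need `n^{Ω(k)}` lines in
general resolution and in cutting planes. -/
theorem Pool.Agent.Lib.MP_7836d5_lc.averageClique_variant (δ C : ℝ) (hδ : 0 < δ) :
    ∃ ε : ℝ, 0 < ε ∧ ∃ k₀ n₀ : ℕ, ∀ n ≥ n₀, ∀ k ≥ k₀, (k : ℝ) ≤ C * Real.log n →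
      ∀ p : unitInterval, (n : ℝ) ^ (-C) ≤ (p : ℝ) ^ (k - 1) →
        (p : ℝ) ^ (k - 1) ≤ (n : ℝ) ^ (-(2 + δ)) →
        1 - 2 / (n : ℝ) ≤ (SimpleGraph.binomialRandom (Fin n) p).real
          {G | G.CliqueFree k ∧ ∀ s : ℕ, ResRef (cliqueCNF G k) s ∨ CPRef (cliqueCNF G k) s →
            (n : ℝ) ^ (ε * k) ≤ s} := by
  obtain ⟨ε, hε, k₀, n₀, h⟩ := Avg.main δ C hδ
  refine ⟨ε, hε, k₀, n₀, fun n hn k hk hkC p h1 h2 => (h n hn k hk hkC p h1 h2).trans ?_⟩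
  refine MeasureTheory.measureReal_mono (fun G hG => ⟨hG.1, fun s hs => hG.2 s ?_⟩)
    (MeasureTheory.measure_ne_top _ _)
  exact hs.elim cpRef_of_resRef id
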