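import Pool.Agent.Lib.MP_7836d5_lc.Main

set_option autoImplicit false

open Pool.Agent.Lib.MP_7836d5_lc in
/-- `k`-clique formulas need `n^{k/600}` lines in general resolution and in cutting planes. -/
theorem Pool.Agent.Lib.MP_7836d5_lc.cliqueProofs_worstCase
    (k n : ℕ) (hk : 64 ≤ k) (hn : 2 ^ (k ^ 4) ≤ n) :
    ∃ (G : SimpleGraph (Fin n)) (part : Fin n → Fin k), G.CliqueFree k ∧
      (∀ u v, G.Adj u v → part u ≠ part v) ∧
      ∀ s : ℕ, ResRef (cliqueCNF G k) s ∨ CPRef (cliqueCNF G k) s ∨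
          ResRef (blockCNF G part) s ∨ CPRef (blockCNF G part) s →
        n ^ k ≤ s ^ 600 := by
  obtain ⟨G, part, h1, h2, h3⟩ := main k n hk hn
  refine ⟨G, part, h1, h2, fun s hs => h3 s ?_⟩
  rcases hs with h | h | h | h
  · exact Or.inl (cpRef_of_resRef h)
  · exact Or.inl h
  · exact Or.inr (cpRef_of_resRef h)
  · exact Or.inr h
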