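import Pool.Agent.Lib.MP_7836d5_lc.Range

set_option autoImplicit false
set_option linter.unusedSectionVars false

/-! Lower bound for triangle dags solving a search problem lifted with inner product. -/

namespace Pool.Agent.Lib.MP_7836d5_lc

open Finset

lemma exists_median {X : Type} (A : Finset X) (hA : A.Nonempty) (a : X → ℝ) :
    ∃ θ : ℝ, A.card ≤ 2 * (A.filter fun x => a x ≤ θ).card ∧
      A.card ≤ 2 * (A.filter fun x => θ ≤ a x).card := by
  obtain ⟨xm, hxm, hm⟩ := exists_max_image A a hA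
  obtain ⟨x0, hx0, hmin⟩ := exists_min_image
    (A.filter fun x0 => A.card ≤ 2 * (A.filter fun x => a x ≤ a x0).card) a
    ⟨xm, mem_filter.mpr ⟨hxm, by rw [filter_true_of_mem hm]; omega⟩⟩
  refine ⟨a x0, (mem_filter.mp hx0).2, ?_⟩
  have hc : (A.filter fun x => a x0 ≤ a x).card + (A.filter fun x => ¬ a x0 ≤ a x).card = A.card :=
    card_filter_add_card_filter_not _
  rcases (A.filter fun x => ¬ a x0 ≤ a x).eq_empty_or_nonempty with h | h
  · rw [h, card_empty] at hc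
    omega
  · obtain ⟨x1, hx1, h1⟩ := exists_max_image _ a h
    by_contra hcon
    have hsub : (A.filter fun x => ¬ a x0 ≤ a x) ⊆ A.filter fun x => a x ≤ a x1 := fun x hx =>
      mem_filter.mpr ⟨(mem_filter.mp hx).1, h1 x hx⟩
    have := card_le_card hsub
    have h2 := hmin x1 (mem_filter.mpr ⟨(mem_filter.mp hx1).1, by omega⟩)
    exact (mem_filter.mp hx1).2 h2

lemma exists_split {X : Type} (A B : Finset X) (hA : A.Nonempty) (hB : B.Nonempty)
    (a1 b1 a2 b2 : X → ℝ) (h : ∀ x ∈ A, ∀ y ∈ B, a1 x + b1 y < 0 ∨ a2 x + b2 y < 0) :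
    ∃ A' ⊆ A, ∃ B' ⊆ B, A.card ≤ 2 * A'.card ∧ B.card ≤ 2 * B'.card ∧
      ((∀ x ∈ A', ∀ y ∈ B', a1 x + b1 y < 0) ∨ (∀ x ∈ A', ∀ y ∈ B', a2 x + b2 y < 0)) := by
  obtain ⟨s, hs1, hs2⟩ := exists_median A hA a1
  obtain ⟨t, ht1, ht2⟩ := exists_median B hB b1
  by_cases hst : s + t < 0
  · refine ⟨_, filter_subset _ _, _, filter_subset _ _, hs1, ht1, Or.inl fun x hx y hy => ?_⟩
    linarith [(mem_filter.mp hx).2, (mem_filter.mp hy).2]
  · refine ⟨_, filter_subset _ _, _, filter_subset _ _, hs2, ht2, Or.inr fun x hx y hy => ?_⟩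
    refine (h x (mem_filter.mp hx).1 y (mem_filter.mp hy).1).resolve_left ?_
    linarith [(mem_filter.mp hx).2, (mem_filter.mp hy).2]

lemma exists_label {X L : Type} [Fintype L] [DecidableEq L] [Nonempty L] (A : Finset X)
    (I : X → L) : ∃ l, A.card ≤ Fintype.card L * (A.filter fun x => I x = l).card := by
  obtain ⟨l, -, hl⟩ := exists_max_image (univ : Finset L)
    (fun l => (A.filter fun x => I x = l).card) univ_nonempty
  refine ⟨l, ?_⟩
  rw [card_eq_sum_card_fiberwise (f := I) (t := univ) (fun _ _ => mem_coe.mpr (mem_univ _)),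
    ← card_univ, ← smul_eq_mul]
  exact sum_le_card_nsmul _ _ _ hl

variable {ι : Type} [Fintype ι] [DecidableEq ι] {b : ℕ}

lemma exists_err {ρ κ W σ : ℕ} (hκ : 2 ≤ κ) (hρ : 0 < ρ) (hn : ρ * κ = 2 ^ b)
    (hσ : 2 * (b + 1) ^ Fintype.card ι ≤ σ) (a : ℕ → (ι → Fin b → ZMod 2) → ℝ) :
    ∃ E : ℕ → Finset (ι → Fin b → ZMod 2), Monotone E ∧
      (∀ i, (E i).card * κ ^ W ≤ i * (2 ^ b) ^ Fintype.card ι) ∧
      ∀ i x, x ∉ E (i + 1) → ∃ P I, Good W ρ σ P I ∧ Disjoint P (E i) ∧ x ∈ P ∧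
        ∀ x' ∈ P, a i x' ≤ a i x := by
  classical
  let bad : ℕ → Finset (ι → Fin b → ZMod 2) → Finset (ι → Fin b → ZMod 2) := fun i S =>
    univ.filter fun x => x ∉ S ∧ ¬ ∃ P I, Good W ρ σ P I ∧ Disjoint P S ∧ x ∈ P ∧
        ∀ x' ∈ P, a i x' ≤ a i x
  have hbad : ∀ i S, (bad i S).card * κ ^ W ≤ (2 ^ b) ^ Fintype.card ι := by
    intro i S
    by_contra hcon
    obtain ⟨P, hP, I, hG⟩ := exists_good hκ hρ hn hσ (bad i S) (not_le.mp hcon).le
    obtain ⟨x, hx, hm⟩ := exists_max_image P (a i) hG.ne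
    refine (mem_filter.mp (hP hx)).2.2 ⟨P, I, hG, ?_, hx, hm⟩
    exact disjoint_left.mpr fun y hy => (mem_filter.mp (hP hy)).2.1
  let E : ℕ → Finset (ι → Fin b → ZMod 2) := fun i =>
    Nat.rec ∅ (fun i S => S ∪ bad i S) i
  have hE : ∀ i, E (i + 1) = E i ∪ bad i (E i) := fun i => rfl
  refine ⟨E, monotone_nat_of_le_succ fun i => by rw [hE]; exact subset_union_left, ?_, ?_⟩
  · intro i
    induction i with
    | zero => simp [E]
    | succ i ih =>
      rw [hE]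
      calc _ ≤ ((E i).card + (bad i (E i)).card) * κ ^ W :=
            Nat.mul_le_mul_right _ (card_union_le _ _)
        _ ≤ _ := by have := hbad i (E i); nlinarith
  · intro i x hx
    rw [hE, mem_union, not_or] at hx
    by_contra hcon
    refine hx.2 ?_
    simp only [bad, mem_filter]
    exact ⟨mem_univ _, hx.1, hcon⟩

structure SafeSys (w : ℕ) (Safe : Finset ι → (ι → ZMod 2) → Prop) : Prop where
  mono : ∀ U U' δ δ', U' ⊆ U → (∀ e ∈ U', δ' e = δ e) → Safe U δ → Safe U' δ'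
  ext : ∀ U U' δ, U ⊆ U' → U'.card ≤ w → Safe U δ → ∃ δ', (∀ e ∈ U, δ' e = δ e) ∧ Safe U' δ'
  init : ∃ δ, Safe ∅ δ

structure State (Safe : Finset ι → (ι → ZMod 2) → Prop) (W ρ lam : ℕ)
    (E E' : Finset (ι → Fin b → ZMod 2)) (a c : (ι → Fin b → ZMod 2) → ℝ)
    (A B : Finset (ι → Fin b → ZMod 2)) (U : Finset ι) (δ : ι → ZMod 2) : Prop where
  neA : A.Nonempty
  neB : B.Nonempty
  dA : Disjoint A E
  dB : Disjoint B E'
  tri : ∀ x ∈ A, ∀ y ∈ B, a x + c y < 0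
  card_le : U.card ≤ 2 * W
  const : ∀ x ∈ A, ∀ y ∈ B, ∀ e ∈ U, zz x y e = δ e
  safe : Safe U δ
  denseA : Dense' lam ρ U A
  denseB : Dense' lam ρ U B

/-- a pair realising a safe extension -/
lemma extend_pair {Safe : Finset ι → (ι → ZMod 2) → Prop} {w ρ lam : ℕ} (hS : SafeSys w Safe)
    {A B : Finset (ι → Fin b → ZMod 2)} {U : Finset ι} {δ : ι → ZMod 2}
    (hA0 : A.Nonempty) (hB0 : B.Nonempty) (hA : Dense' lam ρ U A) (hB : Dense' lam ρ U B)
    (hc : ∀ x ∈ A, ∀ y ∈ B, ∀ e ∈ U, zz x y e = δ e) (hs : Safe U δ)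
    (hnum : lam ^ 2 * 4 ^ Fintype.card ι * 2 ^ b < ρ ^ 2) (hlam : 0 < lam)
    (U' : Finset ι) (hU : (U ∪ U').card ≤ w) :
    ∃ x ∈ A, ∃ y ∈ B, Safe U' (zz x y) := by
  obtain ⟨δ', h1, h2⟩ := hS.ext U (U ∪ U') δ subset_union_left hU hs
  obtain ⟨x, hx, y, hy, h3⟩ := full_range hA hB hA0 hB0 hnum hlam
    (N := U' \ U) sdiff_disjoint δ'
  refine ⟨x, hx, y, hy, hS.mono _ _ _ _ subset_union_right (fun e he => ?_) h2⟩
  by_cases heU : e ∈ U
  · rw [hc x hx y hy e heU, h1 e heU]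
  · exact h3 e (mem_sdiff.mpr ⟨he, heU⟩)

lemma Good.restrict {W ρ σ : ℕ} {P : Finset (ι → Fin b → ZMod 2)} {I : Finset ι}
    (hG : Good W ρ σ P I) {x : ι → Fin b → ZMod 2} (hx : x ∈ P) (y : ι → Fin b → ZMod 2)
    (J : Finset ι) : ∃ P' ⊆ P, x ∈ P' ∧ Dense' (2 * σ) ρ (I ∪ J) P' ∧
      ∀ x' ∈ P', ∀ e ∈ J, zz x' y e = zz x y e := by
  set β : ι → Fin b → ZMod 2 := fun e => if e ∈ J then y e else 0 with hβ
  have hxm : x ∈ P.filter fun x' => zz x' β = zz x β := mem_filter.mpr ⟨hx, rfl⟩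
  refine ⟨P.filter fun x' => zz x' β = zz x β, filter_subset _ _, hxm, ?_, ?_⟩
  · refine hG.dense.sub subset_union_left (filter_subset _ _) ?_
    rw [mul_comm]
    exact (hG.solid β (zz x β)).resolve_left (ne_empty_of_mem hxm)
  · intro x' hx' e he
    have := congrFun (mem_filter.mp hx').2 e
    simpa [zz, hβ, he] using this

lemma State.step {Safe : Finset ι → (ι → ZMod 2) → Prop} {w W ρ σ lam : ℕ} (hS : SafeSys w Safe)
    (hw : 4 * W ≤ w) (hlam : 0 < lam)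
    (hnum : (lam * 2 ^ Fintype.card ι) ^ 2 * 4 ^ Fintype.card ι * 2 ^ b < ρ ^ 2)
    {E E' E1 E1' : Finset (ι → Fin b → ZMod 2)} {a c : (ι → Fin b → ZMod 2) → ℝ}
    (hE : ∀ x, x ∉ E1 → ∃ P I, Good W ρ σ P I ∧ Disjoint P E ∧ x ∈ P ∧ ∀ x' ∈ P, a x' ≤ a x)
    (hE' : ∀ x, x ∉ E1' → ∃ P I, Good W ρ σ P I ∧ Disjoint P E' ∧ x ∈ P ∧ ∀ x' ∈ P, c x' ≤ c x)
    {A B : Finset (ι → Fin b → ZMod 2)} {U : Finset ι} {δ : ι → ZMod 2}
    (h : State Safe W ρ lam E1 E1' a c A B U δ) :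
    ∃ A' B' U' δ', State Safe W ρ (2 * σ) E E' a c A' B' U' δ' := by
  choose! P I hP using hE
  choose! Q J hQ using hE'
  obtain ⟨I', hI'⟩ := exists_label A I
  obtain ⟨J', hJ'⟩ := exists_label B J
  rw [Fintype.card_finset] at hI' hJ'
  have hA0 : (A.filter fun x => I x = I').Nonempty := by
    rw [← card_pos]
    have := card_pos.mpr h.neA
    by_contra hc
    rw [show (A.filter fun x => I x = I').card = 0 by omega] at hI'
    omega
  have hB0 : (B.filter fun x => J x = J').Nonempty := by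
    rw [← card_pos]
    have := card_pos.mpr h.neB
    by_contra hc
    rw [show (B.filter fun x => J x = J').card = 0 by omega] at hJ'
    omega
  have hIc : I'.card ≤ W := by
    obtain ⟨x, hx⟩ := hA0
    rw [mem_filter] at hx
    rw [← hx.2]
    exact (hP x (disjoint_left.mp h.dA hx.1)).1.card_le
  have hJc : J'.card ≤ W := by
    obtain ⟨x, hx⟩ := hB0
    rw [mem_filter] at hx
    rw [← hx.2]
    exact (hQ x (disjoint_left.mp h.dB hx.1)).1.card_le
  have hUc : (I' ∪ J').card ≤ 2 * W := (card_union_le _ _).trans (by omega)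
  obtain ⟨x, hx, y, hy, hs⟩ := extend_pair hS hA0 hB0
    (h.denseA.sub subset_rfl (filter_subset _ _) hI')
    (h.denseB.sub subset_rfl (filter_subset _ _) hJ')
    (fun x hx y hy => h.const x (mem_filter.mp hx).1 y (mem_filter.mp hy).1) h.safe hnum
    (by positivity) (I' ∪ J') ((card_union_le _ _).trans (by have := h.card_le; omega))
  rw [mem_filter] at hx hy
  obtain ⟨gP, dP, xP, mP⟩ := hP x (disjoint_left.mp h.dA hx.1)
  obtain ⟨gQ, dQ, yQ, mQ⟩ := hQ y (disjoint_left.mp h.dB hy.1)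
  rw [hx.2] at gP
  rw [hy.2] at gQ
  obtain ⟨A', a1, a2, a3, a4⟩ := gP.restrict xP y J'
  obtain ⟨B', b1, b2, b3, b4⟩ := gQ.restrict yQ x I'
  refine ⟨A', B', I' ∪ J', zz x y, ⟨x, a2⟩, ⟨y, b2⟩, dP.mono_left a1, dQ.mono_left b1, ?_, hUc,
    ?_, hs, a3, by rwa [union_comm]⟩
  · intro x' hx' y' hy'
    linarith [mP x' (a1 hx'), mQ y' (b1 hy'), h.tri x hx.1 y hy.1]
  · intro x' hx' y' hy' e he
    rcases mem_union.mp he with he | he
    · have h1 := b4 y' hy' e he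
      rw [zz_comm y', zz_comm y] at h1
      rw [← h1]
      simp only [zz, gP.fixed x' (a1 hx') x xP e he]
    · rw [← a4 x' hx' e he]
      simp only [zz, gQ.fixed y' (b1 hy') y yQ e he]

theorem dag_bound {Safe : Finset ι → (ι → ZMod 2) → Prop} {w W d ρ κ σ : ℕ} (hS : SafeSys w Safe)
    (hw : 4 * W ≤ w) (hd : 2 * W + d ≤ w) (hκ : 2 ≤ κ) (hn : ρ * κ = 2 ^ b)
    (hσ : 2 * (b + 1) ^ Fintype.card ι ≤ σ)
    (hnum : (4 * σ * 2 ^ Fintype.card ι) ^ 2 * 4 ^ Fintype.card ι * 2 ^ b < ρ ^ 2)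
    (s : ℕ) (a c : ℕ → (ι → Fin b → ZMod 2) → ℝ)
    (root : ∃ i < s, ∀ x y, a i x + c i y < 0)
    (rule : ∀ i < s, (∃ S : Finset ι, S.card ≤ d ∧ ∀ x y, Safe S (zz x y) → ¬ a i x + c i y < 0) ∨
      ∃ j < i, ∃ l < i, ∀ x y, a i x + c i y < 0 → a j x + c j y < 0 ∨ a l x + c l y < 0) :
    κ ^ W ≤ 2 * s := by
  have hρ : 0 < ρ := by
    rcases Nat.eq_zero_or_pos ρ with h | h
    · rw [h] at hnum; simp at hnum
    · exact h
  have hσ0 : 0 < σ := lt_of_lt_of_le (by positivity) hσ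
  obtain ⟨E, mE, cE, hE⟩ := exists_err (W := W) hκ hρ hn hσ a
  obtain ⟨E', mE', cE', hE'⟩ := exists_err (W := W) hκ hρ hn hσ c
  have key : ∀ i < s, ∀ A B U δ,
      ¬ State Safe W ρ (4 * σ) (E (i + 1)) (E' (i + 1)) (a i) (c i) A B U δ := by
    intro i
    induction i using Nat.strong_induction_on with
    | _ i ih =>
    intro hi A0 B0 U0 δ0 h0
    obtain ⟨A, B, U, δ, h⟩ := h0.step hS hw (by positivity) hnum (hE i) (hE' i)
    rcases rule i hi with ⟨S, hS1, hS2⟩ | ⟨j, hj, l, hl, hjl⟩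
    · have hnum' : (2 * σ) ^ 2 * 4 ^ Fintype.card ι * 2 ^ b < ρ ^ 2 := by
        refine lt_of_le_of_lt ?_ hnum
        have : 1 ≤ 2 ^ Fintype.card ι := Nat.one_le_two_pow
        have h2 : 2 * σ ≤ 4 * σ * 2 ^ Fintype.card ι := by nlinarith
        gcongr
      obtain ⟨x, hx, y, hy, hs⟩ := extend_pair hS h.neA h.neB h.denseA h.denseB h.const h.safe
        hnum' (by positivity) S ((card_union_le _ _).trans (by have := h.card_le; omega))
      exact hS2 x y hs (h.tri x hx y hy)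
    · obtain ⟨A', hA', B', hB', c1, c2, c3⟩ := exists_split A B h.neA h.neB (a j) (c j) (a l) (c l)
        fun x hx y hy => hjl x y (h.tri x hx y hy)
      have hA0 : A'.Nonempty := by
        rw [← card_pos]; have := card_pos.mpr h.neA; omega
      have hB0 : B'.Nonempty := by
        rw [← card_pos]; have := card_pos.mpr h.neB; omega
      have fin : ∀ j < i, (∀ x ∈ A', ∀ y ∈ B', a j x + c j y < 0) → False := by
        intro j hj ht
        refine ih j hj (hj.trans hi) A' B' U δ ⟨hA0, hB0, ?_, ?_, ht, h.card_le,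
          fun x hx y hy => h.const x (hA' hx) y (hB' hy), h.safe, ?_, ?_⟩
        · exact h.dA.mono hA' (mE (by omega))
        · exact h.dB.mono hB' (mE' (by omega))
        · exact (h.denseA.sub subset_rfl hA' c1).mono (by omega)
        · exact (h.denseB.sub subset_rfl hB' c2).mono (by omega)
      exact c3.elim (fin j hj) (fin l hl)
  by_contra hcon
  obtain ⟨i, hi, hr⟩ := root
  obtain ⟨δ, hδ⟩ := hS.init
  have hF : Fintype.card (Fin b → ZMod 2) = 2 ^ b := by simp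
  have hX : (univ : Finset (ι → Fin b → ZMod 2)).card = (2 ^ b) ^ Fintype.card ι := by
    rw [card_univ, Fintype.card_fun, hF]
  have half : ∀ S : Finset (ι → Fin b → ZMod 2),
      S.card * κ ^ W ≤ (i + 1) * (2 ^ b) ^ Fintype.card ι →
      (univ : Finset (ι → Fin b → ZMod 2)).card ≤ 2 * (univ \ S).card := by
    intro S hSc
    have h1 := card_sdiff_add_card_eq_card (subset_univ S)
    have h2 : 2 * S.card * κ ^ W ≤ (2 ^ b) ^ Fintype.card ι * κ ^ W := by
      have : 2 * (i + 1) ≤ κ ^ W := by omega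
      calc 2 * S.card * κ ^ W = 2 * (S.card * κ ^ W) := by ring
        _ ≤ 2 * ((i + 1) * (2 ^ b) ^ Fintype.card ι) := Nat.mul_le_mul_left _ hSc
        _ = (2 ^ b) ^ Fintype.card ι * (2 * (i + 1)) := by ring
        _ ≤ _ := Nat.mul_le_mul_left _ this
    have h3 := Nat.le_of_mul_le_mul_right h2 (by positivity)
    omega
  have hρn : ρ ≤ Fintype.card (Fin b → ZMod 2) := by rw [hF, ← hn]; nlinarith
  have hpos : 0 < (univ : Finset (ι → Fin b → ZMod 2)).card := by rw [hX]; positivity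
  have h1 := half _ (cE (i + 1))
  have h2 := half _ (cE' (i + 1))
  refine key i hi (univ \ E (i + 1)) (univ \ E' (i + 1)) ∅ δ ⟨?_, ?_, sdiff_disjoint,
    sdiff_disjoint, fun x _ y _ => hr x y, by simp, by simp, hδ, ?_, ?_⟩
  · rw [← card_pos]; omega
  · rw [← card_pos]; omega
  · exact ((dense_univ hρn ∅).sub subset_rfl (subset_univ _) h1).mono (by omega)
  · exact ((dense_univ hρn ∅).sub subset_rfl (subset_univ _) h2).mono (by omega)

end Pool.Agent.Lib.MP_7836d5_lc
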