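import Pool.Agent.Lib.MP_7836d5_lc.Graph

set_option autoImplicit false

/-! Choice of the parameters. -/

namespace Pool.Agent.Lib.MP_7836d5_lc

open Finset

lemma cube_le (q : ℕ) (hq : 16 ≤ q) : 8 * (q + 1) * q ^ 2 + 2 ≤ 2 ^ q := by
  induction q, hq using Nat.le_induction with
  | base => norm_num
  | succ q hq ih =>
    rw [pow_succ 2 q]
    nlinarith [Nat.mul_le_mul hq (le_refl (q ^ 2)), Nat.mul_le_mul hq (le_refl q)]

lemma rank_le {t c : ℕ} (ht : 16 ≤ t) (hc : t ^ 3 + 1 ≤ c) :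
    2 * (8 * c + 1) ^ (t * t) ≤ 2 ^ c := by
  have h0 : 0 < t * t := by positivity
  set q := (c - 1) / (t * t) with hq
  have h1 : t ≤ q := by
    rw [hq, Nat.le_div_iff_mul_le h0]
    have : t * (t * t) = t ^ 3 := by ring
    omega
  have h2 : q * (t * t) ≤ c - 1 := Nat.div_mul_le_self _ _
  have h3 : c - 1 < (q + 1) * (t * t) := by
    rw [hq, mul_comm]; exact Nat.lt_mul_div_succ _ h0
  have h4 : (q + 1) * (t * t) ≤ (q + 1) * q ^ 2 := by
    rw [sq]; gcongr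
  have h5 := cube_le q (ht.trans h1)
  have h6 : 8 * c + 1 ≤ 2 ^ q := by
    have : 8 * (q + 1) * q ^ 2 = 8 * ((q + 1) * q ^ 2) := by ring
    omega
  calc 2 * (8 * c + 1) ^ (t * t) ≤ 2 * (2 ^ q) ^ (t * t) := by gcongr
    _ = 2 ^ (q * (t * t) + 1) := by rw [← pow_mul, pow_succ]; ring
    _ ≤ 2 ^ c := Nat.pow_le_pow_right (by norm_num) (by omega)

theorem main (k n : ℕ) (hk : 64 ≤ k) (hn : 2 ^ (k ^ 4) ≤ n) :
    ∃ (G : SimpleGraph (Fin n)) (part : Fin n → Fin k), G.CliqueFree k ∧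
      (∀ u v, G.Adj u v → part u ≠ part v) ∧
      ∀ s, CPRef (cliqueCNF G k) s ∨ CPRef (blockCNF G part) s → n ^ k ≤ s ^ 600 := by
  classical
  obtain ⟨t, ht1, ht2⟩ : ∃ t, 4 * t ≤ k ∧ k ≤ 4 * t + 3 := ⟨k / 4, by omega, by omega⟩
  have ht : 16 ≤ t := by omega
  have : NeZero t := ⟨by omega⟩
  have hk2 : k ≤ 2 ^ k := Nat.lt_two_pow_self.le
  have hex : ∃ c, n < k * 2 ^ (8 * (c + 1) * t) := by
    refine ⟨n, ?_⟩
    calc n < 2 ^ n := Nat.lt_two_pow_self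
      _ ≤ 2 ^ (8 * (n + 1) * t) := Nat.pow_le_pow_right (by norm_num) (by nlinarith)
      _ ≤ _ := Nat.le_mul_of_pos_left _ (by omega)
  set c := Nat.find hex with hc
  have hc1 : n < k * 2 ^ (8 * (c + 1) * t) := Nat.find_spec hex
  have hc2 : t ^ 3 + 1 ≤ c := by
    by_contra hcon
    have h1 : k + 8 * (c + 1) * t ≤ k ^ 4 := by
      have h2 : 8 * (c + 1) * t ≤ 8 * (t ^ 3 + 1) * t := by gcongr; omega
      have h3 : (4 * t) ^ 3 ≤ k ^ 3 := Nat.pow_le_pow_left ht1 3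
      have h4 : 4 * (8 * (t ^ 3 + 1) * t) ≤ 8 * (t ^ 3 + 1) * k := by nlinarith
      have h5 : 16 ^ 3 ≤ t ^ 3 := Nat.pow_le_pow_left ht 3
      have h6 : k ^ 4 = k ^ 3 * k := by ring
      have h7 : (2 * (t ^ 3 + 1) + 1) * k ≤ k ^ 3 * k := by
        gcongr
        rw [mul_pow] at h3
        omega
      nlinarith
    have : k * 2 ^ (8 * (c + 1) * t) ≤ 2 ^ (k ^ 4) :=
      calc _ ≤ 2 ^ k * 2 ^ (8 * (c + 1) * t) := Nat.mul_le_mul_right _ hk2
        _ = 2 ^ (k + 8 * (c + 1) * t) := (pow_add _ _ _).symm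
        _ ≤ _ := Nat.pow_le_pow_right (by norm_num) h1
    omega
  have h3 : 16 * (t * t) ≤ t ^ 3 := by nlinarith
  have h4 : 16 * t ≤ t * t := by nlinarith
  have hc3 : k * 2 ^ (8 * c * t) ≤ n := by
    have := Nat.find_min hex (m := c - 1) (by omega)
    rw [show c - 1 + 1 = c by omega] at this
    omega
  obtain ⟨lab⟩ : Nonempty (Bool × Bool × Fin t ↪ Fin k) :=
    Function.Embedding.nonempty_of_card_le (by simp; omega)
  obtain ⟨emb⟩ : Nonempty (Fin k × (Fin t → Fin (8 * c) → ZMod 2) ↪ Fin n) :=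
    Function.Embedding.nonempty_of_card_le (by simpa [← pow_mul] using hc3)
  refine ⟨(HH lab).map emb, part lab emb, ?_, part_indep lab emb, fun s hs => ?_⟩
  · have : Nonempty (Fin k × (Fin t → Fin (8 * c) → ZMod 2)) := ⟨(⟨0, by omega⟩, 0)⟩
    exact SimpleGraph.cliqueFree_map_iff.mpr (HH_free lab)
  have n1 : 8 * (t * t / 3) < 3 * t ^ 2 := by rw [sq]; omega
  have n2 : 2 ≤ 2 ^ c :=
    calc 2 = 2 ^ 1 := rfl
      _ ≤ 2 ^ c := Nat.pow_le_pow_right (by norm_num) (by omega)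
  have n3 : 2 ^ (7 * c) * 2 ^ c = 2 ^ (8 * c) := by rw [← pow_add]; congr 1; ring
  have n4 : (4 * 2 ^ c * 2 ^ (t * t)) ^ 2 * 4 ^ (t * t) * 2 ^ (8 * c) < (2 ^ (7 * c)) ^ 2 := by
    have : (4 * 2 ^ c * 2 ^ (t * t)) ^ 2 * 4 ^ (t * t) * 2 ^ (8 * c) =
        2 ^ (4 + 10 * c + 4 * (t * t)) := by
      rw [show (4 : ℕ) = 2 ^ 2 from rfl]
      simp only [← pow_mul, ← pow_add]
      congr 1
      ring
    rw [this, ← pow_mul]
    exact Nat.pow_lt_pow_right (by norm_num) (by omega)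
  have hb : (2 ^ c) ^ (t * t / 12) ≤ 2 * s := by
    rcases hs with hs | hs
    · exact cp_bound _ (asg1_split lab emb) (asg1_sat lab emb) n1 (by omega) (by omega) n2 n3
        (rank_le ht hc2) n4 s hs
    · exact cp_bound _ (fun v => asg1_split lab emb _) (asg2_sat lab emb) n1 (by omega) (by omega)
        n2 n3 (rank_le ht hc2) n4 s hs
  set W := t * t / 12 with hW
  have hW1 : t * t ≤ 13 * W := by omega
  have hcW : 1 ≤ c * W := Nat.mul_pos (by omega) (by omega)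
  have h5 : 2 ^ (c * W - 1) ≤ s := by
    have : 2 ^ (c * W) = 2 * 2 ^ (c * W - 1) := by
      rw [← pow_succ']; congr 1; omega
    rw [← pow_mul, this] at hb
    omega
  have h6 : n ≤ 2 ^ (k + 8 * (c + 1) * t) := by
    rw [pow_add]
    exact hc1.le.trans (Nat.mul_le_mul_right _ hk2)
  have h7 : (k + 8 * (c + 1) * t) * k ≤ (c * W - 1) * 600 := by
    have e1 : (k + 8 * (c + 1) * t) * k ≤ (5 * t + 8 * (c + 1) * t) * (5 * t) := by
      gcongr <;> omega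
    have e2 : (5 * t + 8 * (c + 1) * t) * (5 * t) = 40 * (c * (t * t)) + 65 * (t * t) := by ring
    have e3 : c * (t * t) ≤ 13 * (c * W) := by nlinarith
    have e4 : 4096 * (t * t) ≤ c * (t * t) := by gcongr; omega
    omega
  calc n ^ k ≤ (2 ^ (k + 8 * (c + 1) * t)) ^ k := Nat.pow_le_pow_left h6 k
    _ = 2 ^ ((k + 8 * (c + 1) * t) * k) := (pow_mul _ _ _).symm
    _ ≤ 2 ^ ((c * W - 1) * 600) := Nat.pow_le_pow_right (by norm_num) h7
    _ = (2 ^ (c * W - 1)) ^ 600 := pow_mul _ _ _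
    _ ≤ s ^ 600 := Nat.pow_le_pow_left h5 _

end Pool.Agent.Lib.MP_7836d5_lc
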