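import Mathlib

set_option autoImplicit false
set_option linter.unusedSectionVars false

/-! Good pieces: fixed on few blocks, dense on the others, and solid. -/

namespace Pool.Agent.Lib.MP_7836d5_lc

open Finset

section
variable {ι F : Type} [Fintype ι] [DecidableEq ι] [Fintype F] [DecidableEq F]

/-- the members of `A` that agree with `α` on `K` -/
def agr (A : Finset (ι → F)) (K : Finset ι) (α : ι → F) : Finset (ι → F) :=
  A.filter fun x => ∀ e ∈ K, x e = α e

lemma mem_agr {A : Finset (ι → F)} {K : Finset ι} {α x : ι → F} :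
    x ∈ agr A K α ↔ x ∈ A ∧ ∀ e ∈ K, x e = α e := by simp [agr]

lemma agr_mono {A B : Finset (ι → F)} (h : A ⊆ B) (K : Finset ι) (α : ι → F) :
    agr A K α ⊆ agr B K α := filter_subset_filter _ h

lemma card_agr_univ (K : Finset ι) (α : ι → F) :
    (agr univ K α).card * Fintype.card F ^ K.card = Fintype.card F ^ Fintype.card ι := by
  have h : agr univ K α = Fintype.piFinset fun e => if e ∈ K then {α e} else univ := by
    ext x
    simp only [mem_agr, mem_univ, true_and, Fintype.mem_piFinset]
    constructor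
    · intro h e
      split_ifs with he
      · simp [h e he]
      · simp
    · intro h e he
      have := h e
      simpa [he] using this
  rw [h, Fintype.card_piFinset]
  have h2 : Fintype.card F ^ K.card = ∏ e : ι, if e ∈ K then Fintype.card F else 1 := by
    rw [prod_ite_mem]; simp
  rw [h2, ← prod_mul_distrib]
  rw [← card_univ (α := ι), ← prod_const]
  refine prod_congr rfl fun e _ => ?_
  split_ifs <;> simp

/-- density outside `U` -/
def Dense' (lam ρ : ℕ) (U : Finset ι) (A : Finset (ι → F)) : Prop :=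
  ∀ K : Finset ι, K.Nonempty → Disjoint K U → ∀ α : ι → F,
    (agr A K α).card * ρ ^ K.card ≤ lam * A.card

lemma Dense'.sub {lam ρ μ : ℕ} {U U' : Finset ι} {A B : Finset (ι → F)} (h : Dense' lam ρ U A)
    (hU : U ⊆ U') (hB : B ⊆ A) (hc : A.card ≤ μ * B.card) : Dense' (lam * μ) ρ U' B := by
  intro K hK hd α
  calc (agr B K α).card * ρ ^ K.card ≤ (agr A K α).card * ρ ^ K.card :=
        Nat.mul_le_mul_right _ (card_le_card (agr_mono hB K α))
    _ ≤ lam * A.card := h K hK (hd.mono_right hU) α
    _ ≤ lam * (μ * B.card) := Nat.mul_le_mul_left _ hc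
    _ = lam * μ * B.card := by ring

lemma Dense'.mono {lam lam' ρ : ℕ} {U : Finset ι} {A : Finset (ι → F)} (h : Dense' lam ρ U A)
    (hl : lam ≤ lam') : Dense' lam' ρ U A := fun K hK hd α =>
  (h K hK hd α).trans (Nat.mul_le_mul_right _ hl)

lemma dense_univ {ρ : ℕ} (hρ : ρ ≤ Fintype.card F) (U : Finset ι) :
    Dense' 1 ρ U (univ : Finset (ι → F)) := by
  intro K _ _ α
  rw [one_mul, card_univ, Fintype.card_fun, ← card_agr_univ K α]
  exact Nat.mul_le_mul_left _ (Nat.pow_le_pow_left hρ _)

lemma exists_dense {ρ κ W : ℕ} (hκ : 2 ≤ κ) (hρ : 0 < ρ) (hn : ρ * κ = Fintype.card F)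
    (X : Finset (ι → F)) (hX : Fintype.card F ^ Fintype.card ι ≤ X.card * κ ^ W) :
    ∃ (I : Finset ι) (α : ι → F), I.card ≤ W ∧ (agr X I α).Nonempty ∧
      Dense' 1 ρ I (agr X I α) := by
  classical
  have hF : 0 < Fintype.card F := by rw [← hn]; positivity
  have hX0 : 0 < X.card := by
    by_contra h
    have : X.card = 0 := by omega
    rw [this, zero_mul] at hX
    exact absurd hX (not_le.mpr (by positivity))
  obtain ⟨x0, -⟩ := card_pos.mp hX0
  obtain ⟨I, hI, hmax⟩ := exists_max_image
    (univ.filter fun I : Finset ι => ∃ α : ι → F, X.card ≤ (agr X I α).card * ρ ^ I.card)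
    card ⟨∅, by simp only [mem_filter, mem_univ, true_and]; exact ⟨x0, by simp [agr]⟩⟩
  simp only [mem_filter, mem_univ, true_and] at hI hmax
  obtain ⟨α, hα⟩ := hI
  have hP : 0 < (agr X I α).card := by
    by_contra h
    have : (agr X I α).card = 0 := by omega
    rw [this, zero_mul] at hα
    omega
  refine ⟨I, α, ?_, card_pos.mp hP, ?_⟩
  · have h1 : (agr X I α).card * Fintype.card F ^ I.card ≤ Fintype.card F ^ Fintype.card ι := by
      rw [← card_agr_univ I α]
      exact Nat.mul_le_mul_right _ (card_le_card (agr_mono (subset_univ _) _ _))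
    have h2 : (agr X I α).card * ρ ^ I.card * κ ^ I.card ≤
        (agr X I α).card * ρ ^ I.card * κ ^ W := by
      calc _ = (agr X I α).card * Fintype.card F ^ I.card := by rw [← hn, mul_pow]; ring
        _ ≤ X.card * κ ^ W := h1.trans hX
        _ ≤ _ := Nat.mul_le_mul_right _ hα
    have h3 := Nat.le_of_mul_le_mul_left h2 (by positivity)
    exact (Nat.pow_le_pow_iff_right (by omega)).mp h3
  · intro K hK hd γ
    by_contra hcon
    rw [not_le, one_mul] at hcon
    have heq : agr X (I ∪ K) (fun e => if e ∈ K then γ e else α e) = agr (agr X I α) K γ := by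
      ext x
      simp only [mem_agr, mem_union]
      constructor
      · rintro ⟨h1, h2⟩
        refine ⟨⟨h1, fun e he => ?_⟩, fun e he => ?_⟩
        · have := h2 e (Or.inl he)
          rwa [if_neg (fun h => disjoint_left.mp hd h he)] at this
        · have := h2 e (Or.inr he)
          rwa [if_pos he] at this
      · rintro ⟨⟨h1, h2⟩, h3⟩
        refine ⟨h1, fun e he => ?_⟩
        by_cases hk : e ∈ K
        · rw [if_pos hk]; exact h3 e hk
        · rw [if_neg hk]; exact h2 e (he.resolve_right hk)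
    have hc : (I ∪ K).card = I.card + K.card := card_union_of_disjoint hd.symm
    have := hmax (I ∪ K) ⟨_, by
      rw [heq, hc, pow_add]
      calc X.card ≤ (agr X I α).card * ρ ^ I.card := hα
        _ ≤ (agr (agr X I α) K γ).card * ρ ^ K.card * ρ ^ I.card :=
          Nat.mul_le_mul_right _ hcon.le
        _ = _ := by ring⟩
    have := card_pos.mpr hK
    omega

end

/-- Greedy cleaning, with a rank bound on the number of steps. -/
lemma clean {X J R : Type} [DecidableEq X] [Field R] [DecidableEq R] (V : Submodule R (X → R))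
    [FiniteDimensional R V] (f : J → X → R) (hf : ∀ j, f j ∈ V) (σ M : ℕ) :
    ∀ (d : ℕ) (P : Finset X),
      Module.finrank R V ≤ Module.finrank R
        (V ⊓ Submodule.pi (P : Set X) fun _ => ⊥ : Submodule R (X → R)) + d →
      ∃ P' ⊆ P, P.card * σ ≤ P'.card * σ + d * M ∧
        ∀ j, (P'.filter fun x => f j x ≠ 0) = ∅ ∨ M ≤ (P'.filter fun x => f j x ≠ 0).card * σ := by
  intro d
  induction d with
  | zero =>
    intro P hP
    refine ⟨P, subset_rfl, by simp, fun j => Or.inl ?_⟩
    have h1 : (V ⊓ Submodule.pi (P : Set X) fun _ => ⊥ : Submodule R (X → R)) = V :=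
      Submodule.eq_of_le_of_finrank_le inf_le_left (by simpa using hP)
    have h2 : f j ∈ (V ⊓ Submodule.pi (P : Set X) fun _ => ⊥ : Submodule R (X → R)) := by
      rw [h1]; exact hf j
    rw [filter_eq_empty_iff]
    intro x hx
    have := (Submodule.mem_pi.mp h2.2) x hx
    simpa using this
  | succ d ih =>
    intro P hP
    by_cases hall : ∀ j, (P.filter fun x => f j x ≠ 0) = ∅ ∨
        M ≤ (P.filter fun x => f j x ≠ 0).card * σ
    · exact ⟨P, subset_rfl, by omega, hall⟩
    push Not at hall
    obtain ⟨j, hne, hsm⟩ := hall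
    obtain ⟨x0, hx0⟩ := hne
    rw [mem_filter] at hx0
    have hlt : (V ⊓ Submodule.pi (P : Set X) fun _ => ⊥ : Submodule R (X → R)) <
        (V ⊓ Submodule.pi ((P.filter fun x => f j x = 0 : Finset X) : Set X) fun _ => ⊥ :
          Submodule R (X → R)) := by
      refine lt_of_le_of_ne (inf_le_inf_left _ ?_) fun h => ?_
      · intro g hg
        rw [Submodule.mem_pi] at hg ⊢
        intro x hx
        exact hg x (mem_coe.mpr (mem_filter.mp (mem_coe.mp hx)).1)
      · have h2 : f j ∈ (V ⊓ Submodule.pi (P : Set X) fun _ => ⊥ : Submodule R (X → R)) := by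
          rw [h]
          refine ⟨hf j, Submodule.mem_pi.mpr fun x hx => ?_⟩
          simpa using (mem_filter.mp (mem_coe.mp hx)).2
        have := (Submodule.mem_pi.mp h2.2) x0 hx0.1
        exact hx0.2 (by simpa using this)
    have : FiniteDimensional R (V ⊓ Submodule.pi
        ((P.filter fun x => f j x = 0 : Finset X) : Set X) fun _ => ⊥ : Submodule R (X → R)) :=
      Submodule.finiteDimensional_of_le inf_le_left
    have hr := Submodule.finrank_lt_finrank_of_lt hlt
    obtain ⟨P', h1, h2, h3⟩ := ih (P.filter fun x => f j x = 0) (by omega)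
    refine ⟨P', h1.trans (filter_subset _ _), ?_, h3⟩
    have h4 : (P.filter fun x => f j x = 0).card + (P.filter fun x => f j x ≠ 0).card = P.card :=
      card_filter_add_card_filter_not _
    rw [← h4]
    nlinarith

section
variable {ι : Type} [Fintype ι] [DecidableEq ι] {b : ℕ}

/-- blockwise inner product -/
def zz (x y : ι → Fin b → ZMod 2) : ι → ZMod 2 := fun e => x e ⬝ᵥ y e

lemma zz_comm (x y : ι → Fin b → ZMod 2) : zz x y = zz y x := by
  funext e; exact dotProduct_comm _ _

def ind (p : (ι → Fin b → ZMod 2) × (ι → ZMod 2)) (x : ι → Fin b → ZMod 2) : ZMod 2 :=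
  ∏ e, (1 + p.2 e + zz x p.1 e)

lemma ind_ne_zero (β : ι → Fin b → ZMod 2) (δ : ι → ZMod 2) (x : ι → Fin b → ZMod 2) :
    ind (β, δ) x ≠ 0 ↔ zz x β = δ := by
  have key : ∀ u v : ZMod 2, 1 + u + v ≠ 0 ↔ v = u := by decide
  simp only [ind, prod_ne_zero_iff, mem_univ, true_imp_iff, key, funext_iff]

def mono (c : ι → Option (Fin b)) (x : ι → Fin b → ZMod 2) : ZMod 2 :=
  ∏ e, (c e).elim 1 (x e)

lemma ind_mem (p : (ι → Fin b → ZMod 2) × (ι → ZMod 2)) :
    ind p ∈ Submodule.span (ZMod 2) (Set.range (mono (ι := ι) (b := b))) := by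
  have h : ind p = ∑ c : ι → Option (Fin b),
      (∏ e, (c e).elim (1 + p.2 e) (p.1 e)) • mono c := by
    funext x
    have h1 : ∀ e, 1 + p.2 e + zz x p.1 e =
        ∑ o : Option (Fin b), o.elim (1 + p.2 e) (p.1 e) * o.elim 1 (x e) := by
      intro e
      rw [Fintype.sum_option]
      simp [zz, dotProduct, mul_comm]
    simp only [ind, h1, Finset.sum_apply, Pi.smul_apply, smul_eq_mul, mono]
    rw [Fintype.prod_sum]
    exact sum_congr rfl fun c _ => prod_mul_distrib
  rw [h]
  exact Submodule.sum_mem _ fun c _ =>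
    Submodule.smul_mem _ _ (Submodule.subset_span ⟨c, rfl⟩)

structure Good (W ρ σ : ℕ) (P : Finset (ι → Fin b → ZMod 2)) (I : Finset ι) : Prop where
  ne : P.Nonempty
  card_le : I.card ≤ W
  fixed : ∀ x ∈ P, ∀ x' ∈ P, ∀ e ∈ I, x e = x' e
  dense : Dense' 2 ρ I P
  solid : ∀ β δ, (P.filter fun x => zz x β = δ) = ∅ ∨
    P.card ≤ (P.filter fun x => zz x β = δ).card * σ

lemma exists_good {ρ κ W σ : ℕ} (hκ : 2 ≤ κ) (hρ : 0 < ρ) (hn : ρ * κ = 2 ^ b)
    (hσ : 2 * (b + 1) ^ Fintype.card ι ≤ σ) (X : Finset (ι → Fin b → ZMod 2))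
    (hX : (2 ^ b) ^ Fintype.card ι ≤ X.card * κ ^ W) :
    ∃ P ⊆ X, ∃ I, Good W ρ σ P I := by
  have hF : Fintype.card (Fin b → ZMod 2) = 2 ^ b := by simp
  obtain ⟨I, α, h1, h2, h3⟩ := exists_dense hκ hρ (hn.trans hF.symm) X (by rw [hF]; exact hX)
  have : FiniteDimensional (ZMod 2)
      (Submodule.span (ZMod 2) (Set.range (mono (ι := ι) (b := b)))) :=
    FiniteDimensional.span_of_finite _ (Set.finite_range _)
  have hr : Module.finrank (ZMod 2)
      (Submodule.span (ZMod 2) (Set.range (mono (ι := ι) (b := b)))) ≤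
        (b + 1) ^ Fintype.card ι := by
    have := finrank_range_le_card (R := ZMod 2) (mono (ι := ι) (b := b))
    simpa [Set.finrank] using this
  obtain ⟨P, hP1, hP2, hP3⟩ := clean _ ind ind_mem σ (agr X I α).card
    ((b + 1) ^ Fintype.card ι) (agr X I α) (by omega)
  have hσ0 : 0 < σ := lt_of_lt_of_le (by positivity) hσ
  have hhalf : (agr X I α).card ≤ 2 * P.card := by
    have : (agr X I α).card * σ ≤ 2 * P.card * σ := by nlinarith
    exact Nat.le_of_mul_le_mul_right this hσ0
  have hpos := card_pos.mpr h2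
  refine ⟨P, hP1.trans (filter_subset _ _), I, card_pos.mp (by omega), h1, ?_, ?_, ?_⟩
  · intro x hx x' hx' e he
    rw [(mem_agr.mp (hP1 hx)).2 e he, (mem_agr.mp (hP1 hx')).2 e he]
  · simpa using h3.sub subset_rfl hP1 hhalf
  · intro β δ
    have := hP3 (β, δ)
    simp only [ind_ne_zero] at this
    exact this.imp id fun h => (card_le_card hP1).trans h

end

end Pool.Agent.Lib.MP_7836d5_lc
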