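import Pool.Agent.Lib.MP_7836d5_lc.Piece

set_option autoImplicit false
set_option linter.unusedSectionVars false

/-! Full range of the blockwise inner product on a product of two dense sets. -/

namespace Pool.Agent.Lib.MP_7836d5_lc

open Finset

def ch (a : ZMod 2) : ℝ := if a = 0 then 1 else -1

lemma two_cases (a : ZMod 2) : a = 0 ∨ a = 1 := by revert a; decide

lemma ch_add (a c : ZMod 2) : ch (a + c) = ch a * ch c := by
  have h11 : (1 : ZMod 2) + 1 = 0 := by decide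
  rcases two_cases a with rfl | rfl <;> rcases two_cases c with rfl | rfl <;> simp [ch, h11]

lemma ch_sq (a : ZMod 2) : ch a ^ 2 = 1 := by
  unfold ch; split_ifs <;> norm_num

lemma sum_ch {b : ℕ} (w : Fin b → ZMod 2) :
    ∑ a : Fin b → ZMod 2, ch (a ⬝ᵥ w) = if w = 0 then (2 : ℝ) ^ b else 0 := by
  split_ifs with h
  · simp [h, ch]
  · obtain ⟨i, hi⟩ := Function.ne_iff.mp h
    have hi1 : w i = 1 := (two_cases _).resolve_left hi
    have h1 : ∑ a : Fin b → ZMod 2, ch (a ⬝ᵥ w) =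
        ∑ a : Fin b → ZMod 2, ch ((a + Pi.single i 1) ⬝ᵥ w) :=
      (Equiv.sum_comp (Equiv.addRight (Pi.single i 1)) fun a => ch (a ⬝ᵥ w)).symm
    have h2 : ∀ a : Fin b → ZMod 2, ch ((a + Pi.single i 1) ⬝ᵥ w) = - ch (a ⬝ᵥ w) := by
      intro a
      rw [add_dotProduct, single_dotProduct, ch_add, hi1]
      simp [ch]
    simp only [h2, sum_neg_distrib] at h1
    linarith

variable {ι : Type} [Fintype ι] [DecidableEq ι] {b : ℕ}

def gK (K : Finset ι) (x y : ι → Fin b → ZMod 2) : ℝ := ∏ e ∈ K, ch (zz x y e)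

lemma sum_gK (K : Finset ι) (y y' : ι → Fin b → ZMod 2) :
    ∑ α : ι → Fin b → ZMod 2, gK K α y * gK K α y' =
      if ∀ e ∈ K, y' e = y e then ((2 : ℝ) ^ b) ^ Fintype.card ι else 0 := by
  have h1 : ∀ α : ι → Fin b → ZMod 2, gK K α y * gK K α y' =
      ∏ e, ch (α e ⬝ᵥ (if e ∈ K then y e + y' e else 0)) := by
    intro α
    rw [gK, gK, ← prod_mul_distrib, ← prod_ite_mem_eq]
    refine prod_congr rfl fun e _ => ?_
    split_ifs
    · rw [dotProduct_add, ch_add]; rfl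
    · simp [ch]
  simp only [h1]
  rw [← Fintype.prod_sum fun e (a : Fin b → ZMod 2) => ch (a ⬝ᵥ (if e ∈ K then y e + y' e else 0))]
  simp only [sum_ch]
  have h2 : ∀ u v : Fin b → ZMod 2, u + v = 0 ↔ v = u := by
    intro u v
    have key : ∀ s t : ZMod 2, s + t = 0 ↔ t = s := by decide
    simp only [funext_iff, Pi.add_apply, Pi.zero_apply, key]
  split_ifs with h
  · rw [← card_univ, ← prod_const]
    refine prod_congr rfl fun e _ => if_pos ?_
    split_ifs with he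
    · exact (h2 _ _).mpr (h e he)
    · rfl
  · push Not at h
    obtain ⟨e, he, hne⟩ := h
    refine prod_eq_zero (mem_univ e) (if_neg ?_)
    rw [if_pos he, h2]
    exact hne

lemma bias_le {lam ρ : ℕ} {U K : Finset ι} {A B : Finset (ι → Fin b → ZMod 2)}
    (hA : Dense' lam ρ U A) (hB : Dense' lam ρ U B) (hK : K.Nonempty) (hd : Disjoint K U) :
    (∑ x ∈ A, ∑ y ∈ B, gK K x y) ^ 2 * ((ρ : ℝ) ^ K.card) ^ 2 ≤
      (lam : ℝ) ^ 2 * ((A.card : ℝ) * B.card) ^ 2 * ((2 : ℝ) ^ b) ^ K.card := by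
  set f : (ι → Fin b → ZMod 2) → ℝ := fun x => ∑ y ∈ B, gK K x y with hf
  set N : ℝ := ((2 : ℝ) ^ b) ^ Fintype.card ι with hN
  set r : ℝ := (ρ : ℝ) ^ K.card with hr
  set q : ℝ := ((2 : ℝ) ^ b) ^ K.card with hq
  have hN0 : 0 < N := by positivity
  have hr0 : 0 ≤ r := by positivity
  have hq0 : 0 < q := by positivity
  have hF : Fintype.card (Fin b → ZMod 2) = 2 ^ b := by simp
  -- Cauchy-Schwarz
  have h1 : (∑ x ∈ A, f x) ^ 2 ≤ A.card * ∑ x ∈ A, f x ^ 2 := sq_sum_le_card_mul_sum_sq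
  -- Parseval
  have h2 : (∑ α, f α ^ 2) * r ≤ N * (lam * (B.card : ℝ) ^ 2) := by
    have e1 : ∑ α, f α ^ 2 = ∑ y ∈ B, ((agr B K y).card : ℝ) * N := by
      simp only [hf, sq, sum_mul_sum]
      rw [sum_comm]
      refine sum_congr rfl fun y _ => ?_
      rw [sum_comm]
      simp only [sum_gK]
      rw [← sum_filter, sum_const, nsmul_eq_mul]
      rfl
    rw [e1, sum_mul]
    calc ∑ y ∈ B, ((agr B K y).card : ℝ) * N * r ≤ ∑ y ∈ B, N * (lam * B.card) := by
          refine sum_le_sum fun y _ => ?_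
          have := hB K hK hd y
          have h' : ((agr B K y).card : ℝ) * r ≤ lam * B.card := by
            rw [hr]; exact_mod_cast this
          nlinarith
      _ = _ := by rw [sum_const, nsmul_eq_mul]; ring
  -- from `A` to the whole space
  have h3 : (∑ x ∈ A, f x ^ 2) * N * r ≤ lam * A.card * q * ∑ α, f α ^ 2 := by
    have e1 : (∑ x ∈ A, f x ^ 2) * N = q * ∑ α, ((agr A K α).card : ℝ) * f α ^ 2 := by
      have e2 : ∀ α, ((agr A K α).card : ℝ) * f α ^ 2 =
          ∑ x ∈ A, if ∀ e ∈ K, α e = x e then f x ^ 2 else 0 := by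
        intro α
        rw [← sum_filter, ← nsmul_eq_mul, ← sum_const]
        refine sum_congr ?_ fun x hx => ?_
        · ext x
          simp only [mem_agr, mem_filter]
          exact and_congr_right fun _ => forall₂_congr fun e _ => eq_comm
        · have hx2 := (mem_filter.mp hx).2
          have : f α = f x := by
            refine sum_congr rfl fun y _ => prod_congr rfl fun e he => ?_
            simp only [zz, hx2 e he]
          rw [this]
      simp only [e2]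
      rw [sum_comm, mul_sum, sum_mul]
      refine sum_congr rfl fun x _ => ?_
      rw [← sum_filter, sum_const, nsmul_eq_mul]
      have := card_agr_univ K x
      rw [hF] at this
      have h' : ((agr univ K x).card : ℝ) * q = N := by rw [hq, hN]; exact_mod_cast this
      rw [← h']
      simp only [agr]
      ring
    rw [e1, mul_assoc, sum_mul, mul_sum, mul_sum]
    refine sum_le_sum fun α _ => ?_
    have := hA K hK hd α
    have h' : ((agr A K α).card : ℝ) * r ≤ lam * A.card := by rw [hr]; exact_mod_cast this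
    have h0 : 0 ≤ q * f α ^ 2 := by positivity
    nlinarith
  have h4 : (∑ x ∈ A, f x) ^ 2 * r ^ 2 * N ≤ (lam : ℝ) ^ 2 * ((A.card : ℝ) * B.card) ^ 2 * q * N := by
    have a0 : (0 : ℝ) ≤ A.card := by positivity
    calc (∑ x ∈ A, f x) ^ 2 * r ^ 2 * N ≤ (A.card * ∑ x ∈ A, f x ^ 2) * r ^ 2 * N := by gcongr
      _ = A.card * r * ((∑ x ∈ A, f x ^ 2) * N * r) := by ring
      _ ≤ A.card * r * (lam * A.card * q * ∑ α, f α ^ 2) := by gcongr
      _ = A.card * (lam * A.card * q) * ((∑ α, f α ^ 2) * r) := by ring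
      _ ≤ A.card * (lam * A.card * q) * (N * (lam * (B.card : ℝ) ^ 2)) := by gcongr
      _ = _ := by ring
  exact le_of_mul_le_mul_right h4 hN0

lemma full_range {lam ρ : ℕ} {U N : Finset ι} {A B : Finset (ι → Fin b → ZMod 2)}
    (hA : Dense' lam ρ U A) (hB : Dense' lam ρ U B) (hA0 : A.Nonempty) (hB0 : B.Nonempty)
    (hnum : lam ^ 2 * 4 ^ Fintype.card ι * 2 ^ b < ρ ^ 2) (hlam : 0 < lam)
    (hd : Disjoint N U) (δ : ι → ZMod 2) :
    ∃ x ∈ A, ∃ y ∈ B, ∀ e ∈ N, zz x y e = δ e := by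
  by_contra hcon
  push Not at hcon
  set T : ℝ := (A.card : ℝ) * B.card with hT
  have hT0 : 0 < T := mul_pos (by exact_mod_cast card_pos.mpr hA0) (by exact_mod_cast card_pos.mpr hB0)
  have h0 : ∑ x ∈ A, ∑ y ∈ B, ∏ e ∈ N, (1 + ch (zz x y e + δ e)) = 0 := by
    refine sum_eq_zero fun x hx => sum_eq_zero fun y hy => ?_
    obtain ⟨e, he, hne⟩ := hcon x hx y hy
    refine prod_eq_zero he ?_
    have key : ∀ s t : ZMod 2, s ≠ t → s + t ≠ 0 := by decide
    simp [ch, key _ _ hne]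
  have h1 : ∑ x ∈ A, ∑ y ∈ B, ∏ e ∈ N, (1 + ch (zz x y e + δ e)) =
      ∑ K ∈ N.powerset, (∏ e ∈ K, ch (δ e)) * ∑ x ∈ A, ∑ y ∈ B, gK K x y := by
    simp only [prod_one_add, mul_sum]
    rw [sum_comm (s := N.powerset)]
    refine sum_congr rfl fun x _ => ?_
    rw [sum_comm]
    refine sum_congr rfl fun K _ => sum_congr rfl fun y _ => ?_
    simp only [ch_add, gK, prod_mul_distrib]
    ring
  rw [h1, ← add_sum_erase _ _ (empty_mem_powerset N)] at h0
  have h2 : ∀ K ∈ N.powerset.erase ∅,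
      -(T / 2 ^ Fintype.card ι) ≤ (∏ e ∈ K, ch (δ e)) * ∑ x ∈ A, ∑ y ∈ B, gK K x y := by
    intro K hK
    rw [mem_erase, mem_powerset] at hK
    have hK0 : K.Nonempty := nonempty_iff_ne_empty.mpr hK.1
    have hb := bias_le hA hB hK0 (hd.mono_left hK.2)
    set S := ∑ x ∈ A, ∑ y ∈ B, gK K x y
    have hs : ((∏ e ∈ K, ch (δ e)) * S) ^ 2 = S ^ 2 := by
      rw [mul_pow, ← prod_pow]
      simp [ch_sq]
    have hn1 : lam ^ 2 * 4 ^ Fintype.card ι * (2 ^ b) ^ K.card ≤ (ρ ^ K.card) ^ 2 := by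
      obtain ⟨k, hk⟩ : ∃ k, K.card = k + 1 := ⟨K.card - 1, by have := card_pos.mpr hK0; omega⟩
      have h2b : 2 ^ b ≤ ρ ^ 2 := by
        have : 1 ≤ lam ^ 2 * 4 ^ Fintype.card ι := Nat.succ_le_of_lt (by positivity)
        nlinarith [Nat.pos_of_ne_zero (pow_ne_zero b two_ne_zero)]
      rw [hk]
      calc _ = (2 ^ b) ^ k * (lam ^ 2 * 4 ^ Fintype.card ι * 2 ^ b) := by ring
        _ ≤ (ρ ^ 2) ^ k * ρ ^ 2 := Nat.mul_le_mul (Nat.pow_le_pow_left h2b _) hnum.le
        _ = _ := by ring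
    have hn2 : (lam : ℝ) ^ 2 * 4 ^ Fintype.card ι * ((2 : ℝ) ^ b) ^ K.card ≤
        ((ρ : ℝ) ^ K.card) ^ 2 := by exact_mod_cast hn1
    have hρ : 0 < ρ := by
      rcases Nat.eq_zero_or_pos ρ with h | h
      · rw [h] at hnum; simp at hnum
      · exact h
    have hr0 : (0 : ℝ) < ((ρ : ℝ) ^ K.card) ^ 2 := by positivity
    have h4 : S ^ 2 * 4 ^ Fintype.card ι ≤ T ^ 2 := by
      refine le_of_mul_le_mul_right ?_ hr0
      calc S ^ 2 * 4 ^ Fintype.card ι * ((ρ : ℝ) ^ K.card) ^ 2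
          = (S ^ 2 * ((ρ : ℝ) ^ K.card) ^ 2) * 4 ^ Fintype.card ι := by ring
        _ ≤ ((lam : ℝ) ^ 2 * T ^ 2 * ((2 : ℝ) ^ b) ^ K.card) * 4 ^ Fintype.card ι := by gcongr
        _ = T ^ 2 * ((lam : ℝ) ^ 2 * 4 ^ Fintype.card ι * ((2 : ℝ) ^ b) ^ K.card) := by ring
        _ ≤ _ := by gcongr
    have h5 : ((∏ e ∈ K, ch (δ e)) * S) ^ 2 ≤ (T / 2 ^ Fintype.card ι) ^ 2 := by
      rw [hs, div_pow, le_div_iff₀ (by positivity), ← pow_mul, mul_comm _ 2, pow_mul]
      norm_num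
      exact h4
    exact (abs_le_of_sq_le_sq' h5 (by positivity)).1
  have h3 := card_nsmul_le_sum _ _ _ h2
  have h4 : ((N.powerset.erase ∅).card : ℝ) + 1 ≤ 2 ^ Fintype.card ι := by
    have : (N.powerset.erase ∅).card + 1 ≤ 2 ^ Fintype.card ι := by
      rw [card_erase_add_one (empty_mem_powerset N), card_powerset]
      exact Nat.pow_le_pow_right (by norm_num) (card_le_univ N)
    exact_mod_cast this
  have h5 : (∏ e ∈ (∅ : Finset ι), ch (δ e)) * ∑ x ∈ A, ∑ y ∈ B, gK ∅ x y = T := by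
    simp [gK, hT]
  rw [h5] at h0
  rw [nsmul_eq_mul] at h3
  have h6 : T = T / 2 ^ Fintype.card ι * 2 ^ Fintype.card ι := by field_simp
  have h7 : 0 < T / 2 ^ Fintype.card ι := by positivity
  nlinarith

end Pool.Agent.Lib.MP_7836d5_lc
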