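import Pool.Agent.Lib.MP_7836d5_lc.Dag

set_option autoImplicit false
set_option linter.unusedSectionVars false

/-! Safe assignments for the Tseitin system on the complete bipartite graph. -/

namespace Pool.Agent.Lib.MP_7836d5_lc

open Finset

variable {t : ℕ} [NeZero t]

def ed (v : Bool × Fin t) (u : Fin t) : Fin t × Fin t := if v.1 = true then (v.2, u) else (u, v.2)

def par (v : Bool × Fin t) (z : Fin t × Fin t → ZMod 2) : ZMod 2 := ∑ u, z (ed v u)

def chg (v : Bool × Fin t) : ZMod 2 := if v = (true, 0) then 1 else 0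

lemma par_true (r : Fin t) (z : Fin t × Fin t → ZMod 2) : par (true, r) z = ∑ u, z (r, u) := by
  simp [par, ed]

lemma par_false (c : Fin t) (z : Fin t × Fin t → ZMod 2) : par (false, c) z = ∑ u, z (u, c) := by
  simp [par, ed]

lemma not_all (z : Fin t × Fin t → ZMod 2) : ¬ ∀ v, par v z = chg v := by
  intro h
  have h1 : ∑ r, par (true, r) z = ∑ c, par (false, c) z := by
    simp only [par_true, par_false]
    exact sum_comm
  simp only [h, chg] at h1
  simp at h1

def TT (U : Finset (Fin t × Fin t)) (δ : Fin t × Fin t → ZMod 2) : Finset (Bool × Fin t) := by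
  classical
  exact univ.filter fun v => ∃ z : Fin t × Fin t → ZMod 2, (∀ e ∈ U, z e = δ e) ∧
    ∀ u, u ≠ v → par u z = chg u

lemma mem_TT {U : Finset (Fin t × Fin t)} {δ : Fin t × Fin t → ZMod 2} {v : Bool × Fin t} :
    v ∈ TT U δ ↔ ∃ z : Fin t × Fin t → ZMod 2, (∀ e ∈ U, z e = δ e) ∧
      ∀ u, u ≠ v → par u z = chg u := by
  simp [TT]

lemma par_flip (z : Fin t × Fin t → ZMod 2) (r c : Fin t) (u : Bool × Fin t) :
    par u (z + Pi.single (r, c) 1) =
      par u z + if u = (true, r) ∨ u = (false, c) then 1 else 0 := by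
  obtain ⟨s, u⟩ := u
  cases s
  · simp only [par_false, Pi.add_apply, sum_add_distrib, Pi.single_apply, Prod.mk.injEq]
    by_cases h : u = c <;> simp [h]
  · simp only [par_true, Pi.add_apply, sum_add_distrib, Pi.single_apply, Prod.mk.injEq]
    by_cases h : u = r <;> simp [h]

lemma TT_closed {U : Finset (Fin t × Fin t)} {δ : Fin t × Fin t → ZMod 2} {r c : Fin t}
    (h : (r, c) ∉ U) : (true, r) ∈ TT U δ ↔ (false, c) ∈ TT U δ := by
  have key : ∀ v v' : Bool × Fin t, (∀ u, (u = (true, r) ∨ u = (false, c)) ↔ (u = v ∨ u = v')) →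
      v ∈ TT U δ → v' ∈ TT U δ := by
    intro v v' hv hm
    obtain ⟨z, h1, h2⟩ := mem_TT.mp hm
    refine mem_TT.mpr ⟨z + Pi.single (r, c) 1, fun e he => ?_, fun u hu => ?_⟩
    · have : e ≠ (r, c) := fun h' => h (h' ▸ he)
      simp [this, h1 e he]
    · rw [par_flip, if_congr (hv u) rfl rfl]
      by_cases huv : u = v
      · subst huv
        have h3 : par u z ≠ chg u := fun h3 => not_all z fun w => by
          by_cases hw : w = u
          · rw [hw, h3]
          · exact h2 w hw
        have k2 : ∀ p q : ZMod 2, p ≠ q → p + 1 = q := by decide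
        simp [k2 _ _ h3]
      · simp [huv, hu, h2 u huv]
  exact ⟨key _ _ fun _ => Iff.rfl, key _ _ fun _ => or_comm⟩

lemma TT_gap {U : Finset (Fin t × Fin t)} {δ : Fin t × Fin t → ZMod 2}
    (hU : 8 * U.card < 3 * t ^ 2) (h : t < 2 * (TT U δ).card) : t < (TT U δ).card := by
  set R : Finset (Fin t) := univ.filter fun r => (true, r) ∈ TT U δ with hR
  set C : Finset (Fin t) := univ.filter fun c => (false, c) ∈ TT U δ with hC
  have h1 : (TT U δ).card = R.card + C.card := by
    have : TT U δ = R.image (fun r => (true, r)) ∪ C.image (fun c => (false, c)) := by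
      ext ⟨s, u⟩
      cases s <;> simp [hR, hC]
    rw [this, card_union_of_disjoint, card_image_of_injective, card_image_of_injective]
    · exact fun _ _ h => (Prod.mk.inj h).2
    · exact fun _ _ h => (Prod.mk.inj h).2
    · rw [disjoint_left]
      simp
  have h2 : R ×ˢ Cᶜ ∪ Rᶜ ×ˢ C ⊆ U := by
    rintro ⟨r, c⟩ he
    by_contra hn
    have := TT_closed (δ := δ) hn
    simp only [mem_union, mem_product, mem_compl, hR, hC, mem_filter, mem_univ, true_and] at he
    tauto
  have h3 := card_le_card h2
  rw [card_union_of_disjoint, card_product, card_product] at h3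
  · have h4 : Cᶜ.card + C.card = t := by rw [card_compl_add_card]; simp
    have h5 : Rᶜ.card + R.card = t := by rw [card_compl_add_card]; simp
    by_contra hcon
    rw [h1] at h hcon
    push Not at hcon
    generalize R.card = p, C.card = q, Rᶜ.card = p', Cᶜ.card = q' at *
    have h6 : (p' : ℤ) = t - p := by omega
    have h7 : (q' : ℤ) = t - q := by omega
    zify at h hcon h3 hU
    rw [h6, h7] at h3
    nlinarith [sq_nonneg ((p : ℤ) - q), mul_nonneg (sub_nonneg.mpr h.le) (sub_nonneg.mpr hcon)]
  · rw [disjoint_left]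
    rintro ⟨r, c⟩
    simp only [mem_product, mem_compl]
    tauto

def SafeT (U : Finset (Fin t × Fin t)) (δ : Fin t × Fin t → ZMod 2) : Prop := t < (TT U δ).card

lemma safeT_mono (U U' : Finset (Fin t × Fin t)) (δ δ' : Fin t × Fin t → ZMod 2) (h : U' ⊆ U)
    (h1 : ∀ e ∈ U', δ' e = δ e) (hs : SafeT U δ) : SafeT U' δ' := by
  refine lt_of_lt_of_le hs (card_le_card fun v hv => ?_)
  obtain ⟨z, h2, h3⟩ := mem_TT.mp hv
  exact mem_TT.mpr ⟨z, fun e he => by rw [h2 e (h he), h1 e he], h3⟩

lemma safeSys {w : ℕ} (hw : 8 * w < 3 * t ^ 2) : SafeSys w (SafeT (t := t)) where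
  mono := safeT_mono
  ext := by
    intro U U' δ hU hc hs
    have key : ∀ N : Finset (Fin t × Fin t), (U ∪ N).card ≤ w →
        ∃ δ', (∀ e ∈ U, δ' e = δ e) ∧ SafeT (U ∪ N) δ' := by
      intro N
      induction N using Finset.induction_on with
      | empty => intro _; exact ⟨δ, fun _ _ => rfl, by simpa using hs⟩
      | insert e N _ ih =>
        intro hc
        rw [union_insert] at hc ⊢
        obtain ⟨δ', h1, h2⟩ := ih ((card_le_card (subset_insert _ _)).trans hc)
        by_cases he : e ∈ U ∪ N
        · exact ⟨δ', h1, by rwa [insert_eq_of_mem he]⟩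
        have hsub : TT (U ∪ N) δ' ⊆ TT (insert e (U ∪ N)) (Function.update δ' e 0) ∪
            TT (insert e (U ∪ N)) (Function.update δ' e 1) := by
          intro v hv
          obtain ⟨z, h3, h4⟩ := mem_TT.mp hv
          have h5 : v ∈ TT (insert e (U ∪ N)) (Function.update δ' e (z e)) := by
            refine mem_TT.mpr ⟨z, fun e' he' => ?_, h4⟩
            rcases mem_insert.mp he' with rfl | he'
            · simp
            · rw [Function.update_of_ne (ne_of_mem_of_not_mem he' he), h3 e' he']
          rcases two_cases (z e) with h | h <;> rw [h] at h5 <;> simp [h5]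
        have h6 := (card_le_card hsub).trans (card_union_le _ _)
        have fin : ∀ a : ZMod 2, t < 2 * (TT (insert e (U ∪ N)) (Function.update δ' e a)).card →
            ∃ δ', (∀ e ∈ U, δ' e = δ e) ∧ SafeT (insert e (U ∪ N)) δ' := by
          intro a ha
          refine ⟨Function.update δ' e a, fun e' he' => ?_, TT_gap (by omega) ha⟩
          rw [Function.update_of_ne (ne_of_mem_of_not_mem (mem_union_left _ he') he), h1 e' he']
        unfold SafeT at h2
        by_cases h0 : t < 2 * (TT (insert e (U ∪ N)) (Function.update δ' e 0)).card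
        · exact fin 0 h0
        · exact fin 1 (by omega)
    have := key U' (by rwa [union_eq_right.mpr hU])
    rwa [union_eq_right.mpr hU] at this
  init := by
    refine ⟨0, ?_⟩
    have h0 : ((true, 0) : Bool × Fin t) ∈ TT ∅ (0 : Fin t × Fin t → ZMod 2) :=
      mem_TT.mpr ⟨0, by simp, fun u hu => by simp [par, chg, hu]⟩
    have h1 : ∀ c : Fin t, (false, c) ∈ TT ∅ (0 : Fin t × Fin t → ZMod 2) := fun c =>
      (TT_closed (r := 0) (notMem_empty _)).mp h0
    have h2 : TT ∅ (0 : Fin t × Fin t → ZMod 2) = univ := by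
      rw [eq_univ_iff_forall]
      rintro ⟨s, u⟩
      cases s
      · exact h1 u
      · exact (TT_closed (c := 0) (notMem_empty _)).mpr (h1 0)
    have := NeZero.pos t
    simp only [SafeT, h2, card_univ, Fintype.card_prod, Fintype.card_bool, Fintype.card_fin]
    omega

lemma safeT_star (v : Bool × Fin t) (z : Fin t × Fin t → ZMod 2)
    (h : SafeT (univ.image (ed v)) z) : par v z = chg v := by
  have := NeZero.pos t
  obtain ⟨u, hu, huv⟩ := exists_mem_ne (s := TT (univ.image (ed v)) z)
    (lt_of_le_of_lt this h) v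
  obtain ⟨z', h1, h2⟩ := mem_TT.mp hu
  rw [← h2 v huv.symm]
  exact sum_congr rfl fun c _ => (h1 _ (mem_image_of_mem _ (mem_univ _))).symm

end Pool.Agent.Lib.MP_7836d5_lc
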